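import Mathlib

set_option autoImplicit false

namespace Pool.Agent.Results.MP_8e1c75_pr.ThreeColours

/-! `n` copies of an eight vertex graph are glued at a vertex `v` (`none`).  The other vertices of
a copy are `u = 0, x = 1, y = 2, w = 3` (side `A`) and `b₁ = 4, b₂ = 5, b₃ = 6`, with edges
`v b₁, v b₂, u b₁, u b₂, x b₁, x b₃, y b₂, y b₃, w b₃`. -/

def hub (k : Fin 7) : Bool := k == 4 || k == 5

def adj7 (k l : Fin 7) : Bool :=
  (k == 0 && (l == 4 || l == 5)) || (k == 1 && (l == 4 || l == 6)) ||
  (k == 2 && (l == 5 || l == 6)) || (k == 3 && l == 6) ||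
  (l == 0 && (k == 4 || k == 5)) || (l == 1 && (k == 4 || k == 6)) ||
  (l == 2 && (k == 5 || k == 6)) || (l == 3 && k == 6)

def adjB (n : ℕ) : Option (Fin n × Fin 7) → Option (Fin n × Fin 7) → Bool
  | none, none => false
  | none, some p => hub p.2
  | some p, none => hub p.2
  | some p, some r => (p.1 == r.1) && adj7 p.2 r.2

theorem adj7_symm : ∀ k l, adj7 k l = adj7 l k := by decide

theorem adj7_irrefl : ∀ k, adj7 k k = false := by decide

def gr (n : ℕ) : SimpleGraph (Option (Fin n × Fin 7)) where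
  Adj a b := adjB n a b = true
  symm := ⟨by
    rintro (_ | p) (_ | r) h
    · exact h
    · exact h
    · exact h
    · simp only [adjB, Bool.and_eq_true, beq_iff_eq] at h ⊢
      exact ⟨h.1.symm, by rw [adj7_symm]; exact h.2⟩⟩
  loopless := ⟨by
    rintro (_ | p) h
    · simp [adjB] at h
    · simp [adjB, adj7_irrefl] at h⟩

instance (n : ℕ) : DecidableRel (gr n).Adj := fun a b => inferInstanceAs (Decidable (adjB n a b = true))

def inA (n : ℕ) : Option (Fin n × Fin 7) → Bool
  | none => true
  | some p => decide (p.2 < 4)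

/-- side `A` -/
def sideA (n : ℕ) : Finset (Option (Fin n × Fin 7)) :=
  Finset.univ.filter (fun a => inA n a = true)

theorem hub_side : ∀ k, hub k = true → decide (k < 4) = false := by decide

theorem adj7_side : ∀ k l, adj7 k l = true → (decide (k < 4) = !decide (l < 4)) := by decide

theorem bip (n : ℕ) (a b : Option (Fin n × Fin 7)) (h : (gr n).Adj a b) :
    a ∈ sideA n ↔ b ∉ sideA n := by
  have h' : adjB n a b = true := h
  simp only [sideA, Finset.mem_filter, Finset.mem_univ, true_and]
  rcases a with _ | ⟨i, k⟩ <;> rcases b with _ | ⟨j, l⟩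
  · simp [adjB] at h'
  · have := hub_side l h'
    simp only [inA, this]
    simp
  · have := hub_side k h'
    simp only [inA, this]
    simp
  · simp only [adjB, Bool.and_eq_true] at h'
    have := adj7_side k l h'.2
    simp only [inA, this]
    cases decide (l < 4) <;> simp

/-- the restriction of a proper colouring to a copy -/
def good (c0 : Fin 3) (g : Fin 7 → Fin 3) : Prop :=
  g 4 ≠ c0 ∧ g 5 ≠ c0 ∧ g 0 ≠ g 4 ∧ g 0 ≠ g 5 ∧ g 1 ≠ g 4 ∧ g 1 ≠ g 6 ∧ g 2 ≠ g 5 ∧ g 2 ≠ g 6 ∧
    g 3 ≠ g 6

instance (c0 : Fin 3) (g : Fin 7 → Fin 3) : Decidable (good c0 g) := by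
  unfold good; infer_instance

theorem proper_iff (n : ℕ) (f : Option (Fin n × Fin 7) → Fin 3) :
    (∀ a b, (gr n).Adj a b → f a ≠ f b) ↔ ∀ i, good (f none) (fun k => f (some (i, k))) := by
  constructor
  · intro h i
    refine ⟨?_, ?_, ?_, ?_, ?_, ?_, ?_, ?_, ?_⟩
    · exact (h none (some (i, 4)) (by show adjB n _ _ = true; simp [adjB, hub])).symm
    · exact (h none (some (i, 5)) (by show adjB n _ _ = true; simp [adjB, hub])).symm
    · exact h (some (i, 0)) (some (i, 4)) (by show adjB n _ _ = true; simp [adjB, adj7])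
    · exact h (some (i, 0)) (some (i, 5)) (by show adjB n _ _ = true; simp [adjB, adj7])
    · exact h (some (i, 1)) (some (i, 4)) (by show adjB n _ _ = true; simp [adjB, adj7])
    · exact h (some (i, 1)) (some (i, 6)) (by show adjB n _ _ = true; simp [adjB, adj7])
    · exact h (some (i, 2)) (some (i, 5)) (by show adjB n _ _ = true; simp [adjB, adj7])
    · exact h (some (i, 2)) (some (i, 6)) (by show adjB n _ _ = true; simp [adjB, adj7])
    · exact h (some (i, 3)) (some (i, 6)) (by show adjB n _ _ = true; simp [adjB, adj7])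
  · intro h a b hab
    rcases a with _ | ⟨i, k⟩ <;> rcases b with _ | ⟨j, l⟩
    · simp [gr, adjB] at hab
    · have h' := h j
      have hab' : hub l = true := hab
      simp only [hub, Bool.or_eq_true, beq_iff_eq] at hab'
      rcases hab' with rfl | rfl
      · exact h'.1.symm
      · exact h'.2.1.symm
    · have h' := h i
      have hab' : hub k = true := hab
      simp only [hub, Bool.or_eq_true, beq_iff_eq] at hab'
      rcases hab' with rfl | rfl
      · exact h'.1
      · exact h'.2.1
    · have hab' : ((i == j) && adj7 k l) = true := hab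
      simp only [Bool.and_eq_true, beq_iff_eq] at hab'
      obtain ⟨rfl, hkl⟩ := hab'
      obtain ⟨h1, h2, h3, h4, h5, h6, h7, h8, h9⟩ := h i
      simp only [adj7, Bool.or_eq_true, Bool.and_eq_true, beq_iff_eq] at hkl
      rcases hkl with ((((((( ⟨rfl, rfl | rfl⟩ | ⟨rfl, rfl | rfl⟩) | ⟨rfl, rfl | rfl⟩) | ⟨rfl, rfl⟩) |
        ⟨rfl, rfl | rfl⟩) | ⟨rfl, rfl | rfl⟩) | ⟨rfl, rfl | rfl⟩) | ⟨rfl, rfl⟩)
      all_goals first | assumption | (apply Ne.symm; assumption)

/-- counting colourings of the glued graph -/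
theorem count (n : ℕ) (P : Fin 3 → (Fin 7 → Fin 3) → Prop) [∀ c g, Decidable (P c g)] :
    ((Finset.univ : Finset (Option (Fin n × Fin 7) → Fin 3)).filter
      (fun f => ∀ i, P (f none) (fun k => f (some (i, k))))).card =
    ∑ c0 : Fin 3, ((Finset.univ : Finset (Fin 7 → Fin 3)).filter (P c0)).card ^ n := by
  classical
  have e : {f : Option (Fin n × Fin 7) → Fin 3 // ∀ i, P (f none) (fun k => f (some (i, k)))} ≃
      Σ c0 : Fin 3, (Fin n → {g : Fin 7 → Fin 3 // P c0 g}) :=
    { toFun := fun f => ⟨f.1 none, fun i => ⟨fun k => f.1 (some (i, k)), f.2 i⟩⟩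
      invFun := fun s => ⟨fun a => match a with
          | none => s.1
          | some p => (s.2 p.1).1 p.2, fun i => (s.2 i).2⟩
      left_inv := by
        rintro ⟨f, hf⟩
        apply Subtype.ext
        funext a
        rcases a with _ | p <;> rfl
      right_inv := by
        rintro ⟨c0, s⟩
        rfl }
  have h1 := Fintype.card_congr e
  rw [Fintype.card_subtype, Fintype.card_sigma] at h1
  rw [h1]
  refine Finset.sum_congr rfl fun c0 _ => ?_
  rw [Fintype.card_fun, Fintype.card_fin, Fintype.card_subtype]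

theorem sum_cons {m : ℕ} (F : (Fin (m + 1) → Fin 3) → ℕ) :
    ∑ g : Fin (m + 1) → Fin 3, F g = ∑ a : Fin 3, ∑ g : Fin m → Fin 3, F (Fin.cons a g) := by
  rw [← (Fin.consEquiv (fun _ => Fin 3)).sum_comp, Fintype.sum_prod_type]
  rfl

theorem card7 (P : (Fin 7 → Fin 3) → Prop) [DecidablePred P] :
    ((Finset.univ : Finset (Fin 7 → Fin 3)).filter P).card =
    ∑ a : Fin 3, ∑ b : Fin 3, ∑ c : Fin 3, ∑ d : Fin 3, ∑ e : Fin 3, ∑ f : Fin 3, ∑ g : Fin 3,
      if P ![a, b, c, d, e, f, g] then 1 else 0 := by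
  rw [Finset.card_filter]
  rw [sum_cons]
  refine Finset.sum_congr rfl fun a _ => ?_
  rw [sum_cons]
  refine Finset.sum_congr rfl fun b _ => ?_
  rw [sum_cons]
  refine Finset.sum_congr rfl fun c _ => ?_
  rw [sum_cons]
  refine Finset.sum_congr rfl fun d _ => ?_
  rw [sum_cons]
  refine Finset.sum_congr rfl fun e _ => ?_
  rw [sum_cons]
  refine Finset.sum_congr rfl fun f _ => ?_
  rw [sum_cons]
  refine Finset.sum_congr rfl fun g _ => ?_
  rw [Fintype.sum_unique]
  congr

theorem c_total (c0 : Fin 3) :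
    ((Finset.univ : Finset (Fin 7 → Fin 3)).filter (good c0)).card = 68 := by
  rw [card7]
  revert c0
  decide +kernel

theorem c_u :
    ((Finset.univ : Finset (Fin 7 → Fin 3)).filter (fun g => good 0 g ∧ g 0 = 0)).card = 44 := by
  rw [card7]
  decide +kernel

theorem c_w :
    ((Finset.univ : Finset (Fin 7 → Fin 3)).filter (fun g => good 0 g ∧ g 3 = 0)).card = 28 := by
  rw [card7]
  decide +kernel

theorem c_uw :
    ((Finset.univ : Finset (Fin 7 → Fin 3)).filter
      (fun g => good 0 g ∧ g 0 = 0 ∧ g 3 = 0)).card = 18 := by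
  rw [card7]
  decide +kernel

/-- counting colourings with `v` of colour `0` -/
theorem count0 (n : ℕ) (hn : 0 < n) (P : (Fin 7 → Fin 3) → Prop) [DecidablePred P] :
    ((Finset.univ : Finset (Option (Fin n × Fin 7) → Fin 3)).filter
      (fun f => (∀ a b, (gr n).Adj a b → f a ≠ f b) ∧ f none = 0 ∧
        ∀ i, P (fun k => f (some (i, k))))).card =
    ((Finset.univ : Finset (Fin 7 → Fin 3)).filter (fun g => good 0 g ∧ P g)).card ^ n := by
  classical
  have h := count n (fun c0 g => c0 = 0 ∧ good 0 g ∧ P g)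
  have h2 : ((Finset.univ : Finset (Option (Fin n × Fin 7) → Fin 3)).filter
      (fun f => (∀ a b, (gr n).Adj a b → f a ≠ f b) ∧ f none = 0 ∧
        ∀ i, P (fun k => f (some (i, k))))) =
      ((Finset.univ : Finset (Option (Fin n × Fin 7) → Fin 3)).filter
      (fun f => ∀ i, f none = 0 ∧ good 0 (fun k => f (some (i, k))) ∧
        P (fun k => f (some (i, k))))) := by
    apply Finset.filter_congr
    intro f _
    rw [proper_iff]
    constructor
    · rintro ⟨h1, h2, h3⟩ i
      exact ⟨h2, h2 ▸ h1 i, h3 i⟩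
    · intro h
      have h0 := (h ⟨0, hn⟩).1
      exact ⟨fun i => h0 ▸ (h i).2.1, h0, fun i => (h i).2.2⟩
  rw [h2, h, Fin.sum_univ_three]
  have e1 : ((Finset.univ : Finset (Fin 7 → Fin 3)).filter
      (fun g => (1 : Fin 3) = 0 ∧ good 0 g ∧ P g)).card = 0 := by
    simp
  have e2 : ((Finset.univ : Finset (Fin 7 → Fin 3)).filter
      (fun g => (2 : Fin 3) = 0 ∧ good 0 g ∧ P g)).card = 0 := by
    simp
  rw [e1, e2, zero_pow hn.ne']
  simp

theorem total (n : ℕ) :
    ((Finset.univ : Finset (Option (Fin n × Fin 7) → Fin 3)).filter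
      (fun f => ∀ a b, (gr n).Adj a b → f a ≠ f b)).card = 3 * 68 ^ n := by
  classical
  have h := count n good
  have h2 : ((Finset.univ : Finset (Option (Fin n × Fin 7) → Fin 3)).filter
      (fun f => ∀ a b, (gr n).Adj a b → f a ≠ f b)) =
      ((Finset.univ : Finset (Option (Fin n × Fin 7) → Fin 3)).filter
      (fun f => ∀ i, good (f none) (fun k => f (some (i, k))))) := by
    apply Finset.filter_congr
    intro f _
    rw [proper_iff]
  rw [h2, h, Fin.sum_univ_three, c_total, c_total, c_total]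
  ring


/-- membership test for `princ` -/
def inP (n : ℕ) (K : Fin 7 → Bool) : Option (Fin n × Fin 7) → Bool
  | none => true
  | some p => K p.2

/-- `none` and the `k`-th vertices of all copies with `K k` -/
def princ (n : ℕ) (K : Fin 7 → Bool) : Finset (Option (Fin n × Fin 7)) :=
  Finset.univ.filter (fun a => inP n K a = true)

theorem mem_princ_none (n : ℕ) (K : Fin 7 → Bool) : none ∈ princ n K :=
  Finset.mem_filter.2 ⟨Finset.mem_univ _, rfl⟩

theorem mem_princ_some (n : ℕ) (K : Fin 7 → Bool) (i : Fin n) (k : Fin 7) :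
    some (i, k) ∈ princ n K ↔ K k = true :=
  ⟨fun h => (Finset.mem_filter.1 h).2, fun h => Finset.mem_filter.2 ⟨Finset.mem_univ _, h⟩⟩

theorem princ_iff (n : ℕ) (K : Fin 7 → Bool) (f : Option (Fin n × Fin 7) → Fin 3) :
    (∀ t ∈ princ n K, f t = 0) ↔ (f none = 0 ∧ ∀ i k, K k = true → f (some (i, k)) = 0) := by
  constructor
  · intro h
    exact ⟨h none (mem_princ_none n K), fun i k hk =>
      h (some (i, k)) ((mem_princ_some n K i k).2 hk)⟩
  · rintro ⟨h0, h1⟩ t ht
    rcases t with _ | ⟨i, k⟩
    · exact h0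
    · exact h1 i k ((mem_princ_some n K i k).1 ht)

theorem princ_sub (n : ℕ) (K : Fin 7 → Bool) (hK : ∀ k, K k = true → k < 4) :
    princ n K ⊆ sideA n := by
  intro a ha
  rcases a with _ | ⟨i, k⟩
  · exact Finset.mem_filter.2 ⟨Finset.mem_univ _, rfl⟩
  · exact Finset.mem_filter.2 ⟨Finset.mem_univ _,
      decide_eq_true (hK k ((mem_princ_some n K i k).1 ha))⟩

theorem princ_union (n : ℕ) (K L : Fin 7 → Bool) :
    princ n K ∪ princ n L = princ n (fun k => K k || L k) := by
  ext a
  rw [Finset.mem_union]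
  rcases a with _ | ⟨i, k⟩
  · simp [mem_princ_none]
  · rw [mem_princ_some, mem_princ_some, mem_princ_some]
    simp

theorem card_princ (n : ℕ) (hn : 0 < n) (K : Fin 7 → Bool) :
    ((Finset.univ : Finset (Option (Fin n × Fin 7) → Fin 3)).filter
      (fun f => (∀ v w, (gr n).Adj v w → f v ≠ f w) ∧ ∀ t ∈ princ n K, f t = 0)).card =
    ((Finset.univ : Finset (Fin 7 → Fin 3)).filter
      (fun g => good 0 g ∧ ∀ k, K k = true → g k = 0)).card ^ n := by
  classical
  rw [← count0 n hn (fun g => ∀ k, K k = true → g k = 0)]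
  congr 1
  apply Finset.filter_congr
  intro f _
  rw [princ_iff]

/-- Three colours, principal events: there is a finite bipartite graph with bipartition `(A, B)`
and there are `U, W ⊆ A` such that for a uniformly random proper 3-colouring the probability that
all vertices of `U ∪ W` have colour `0` is smaller than the product of the probabilities for `U`
and for `W`. -/
theorem result :
    ∃ (V : Type) (_ : Fintype V) (_ : DecidableEq V) (G : SimpleGraph V) (_ : DecidableRel G.Adj)
      (A U W : Finset V) (p : Finset V → ℚ),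
      (∀ v w : V, G.Adj v w → (v ∈ A ↔ w ∉ A)) ∧ U ⊆ A ∧ W ⊆ A ∧
      (∀ T : Finset V, p T =
        (((Finset.univ : Finset (V → Fin 3)).filter
          (fun f => (∀ v w : V, G.Adj v w → f v ≠ f w) ∧ ∀ t ∈ T, f t = 0)).card : ℚ) /
        (((Finset.univ : Finset (V → Fin 3)).filter
          (fun f => ∀ v w : V, G.Adj v w → f v ≠ f w)).card : ℚ)) ∧
      p (U ∪ W) < p U * p W := by
  have key : ∀ n : ℕ, 0 < n → 3 * (18 * 68) ^ n < (44 * 28) ^ n →
    ∃ (V : Type) (_ : Fintype V) (_ : DecidableEq V) (G : SimpleGraph V) (_ : DecidableRel G.Adj)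
      (A U W : Finset V) (p : Finset V → ℚ),
      (∀ v w : V, G.Adj v w → (v ∈ A ↔ w ∉ A)) ∧ U ⊆ A ∧ W ⊆ A ∧
      (∀ T : Finset V, p T =
        (((Finset.univ : Finset (V → Fin 3)).filter
          (fun f => (∀ v w : V, G.Adj v w → f v ≠ f w) ∧ ∀ t ∈ T, f t = 0)).card : ℚ) /
        (((Finset.univ : Finset (V → Fin 3)).filter
          (fun f => ∀ v w : V, G.Adj v w → f v ≠ f w)).card : ℚ)) ∧
      p (U ∪ W) < p U * p W := by
    intro n hn hlt
    refine ⟨Option (Fin n × Fin 7), inferInstance, inferInstance, gr n, inferInstance, sideA n,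
      princ n (fun k => k == 0), princ n (fun k => k == 3), _, bip n,
      princ_sub n _ (by decide), princ_sub n _ (by decide), fun T => rfl, ?_⟩
    rw [princ_union, card_princ n hn, card_princ n hn, card_princ n hn, total]
    have e1 : ((Finset.univ : Finset (Fin 7 → Fin 3)).filter
        (fun g => good 0 g ∧ ∀ k, (k == 0) = true → g k = 0)).card = 44 := by
      refine (congrArg Finset.card ?_).trans c_u
      apply Finset.filter_congr
      intro g _
      simp
    have e2 : ((Finset.univ : Finset (Fin 7 → Fin 3)).filter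
        (fun g => good 0 g ∧ ∀ k, (k == 3) = true → g k = 0)).card = 28 := by
      refine (congrArg Finset.card ?_).trans c_w
      apply Finset.filter_congr
      intro g _
      simp
    have e3 : ((Finset.univ : Finset (Fin 7 → Fin 3)).filter
        (fun g => good 0 g ∧ ∀ k, (k == 0 || k == 3) = true → g k = 0)).card = 18 := by
      refine (congrArg Finset.card ?_).trans c_uw
      apply Finset.filter_congr
      intro g _
      simp
    rw [e1, e2, e3]
    have h68 : (0 : ℚ) < ((3 * 68 ^ n : ℕ) : ℚ) := by positivity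
    rw [div_mul_div_comm, div_lt_div_iff₀ h68 (by positivity)]
    have h3 : (18 ^ n * (3 * 68 ^ n * (3 * 68 ^ n)) : ℕ) < 44 ^ n * 28 ^ n * (3 * 68 ^ n) := by
      have h68' : 0 < 3 * 68 ^ n := by positivity
      have : 18 ^ n * (3 * 68 ^ n) < 44 ^ n * 28 ^ n := by
        calc 18 ^ n * (3 * 68 ^ n) = 3 * (18 * 68) ^ n := by rw [mul_pow]; ring
          _ < (44 * 28) ^ n := hlt
          _ = 44 ^ n * 28 ^ n := by rw [mul_pow]
      rw [← mul_assoc]
      exact (Nat.mul_lt_mul_right h68').2 this
    exact_mod_cast h3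
  exact key 200 (by norm_num) (by norm_num)

end Pool.Agent.Results.MP_8e1c75_pr.ThreeColours
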